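import Pool.Agent.helper32.TRG.Spec

set_option autoImplicit false

open Finset

namespace Pool.Agent.TRI

open Pool.Agent.EXC

theorem CM4_j : ∀ j : Fin 6, (![-2, -1, 0, 0, 0, 1] : Fin 6 → ℤ) j = -1 → j = 1 := by
  decide

theorem CM4 (hPR4 : PR4_stmt) (hT4P : T4P_stmt) : CM4_stmt := by
  intro F _ a b a' b' h h'
  obtain ⟨j, hj, g, hg, κ, hκ, ga, gb⟩ := hPR4 F a b (-1) h (by norm_num)
  obtain ⟨j', hj', g', hg', κ', hκ', ga', gb'⟩ := hPR4 F a' b' (-1) h' (by norm_num)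
  have e : j = 1 := CM4_j j ((bt4_spec j).2.symm.trans hj)
  have e' : j' = 1 := CM4_j j' ((bt4_spec j').2.symm.trans hj')
  subst e
  subst e'
  obtain ⟨k, hk, k1, k2⟩ := (hT4P F th4 (bt4 1) th4_root (bt4_spec 1).1 1 (κ' / κ) one_ne_zero
    (div_ne_zero hκ' hκ)).2 hj
  refine ⟨g'⁻¹ * (k * g), (GE C4 F).mul_mem ((GE C4 F).inv_mem hg')
    ((GE C4 F).mul_mem hk hg), ?_, ?_⟩
  · change g'⁻¹ (k (g a)) = a'
    rw [ga, k1, one_smul, ← ga']
    exact g'.symm_apply_apply a'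
  · change g'⁻¹ (k (g b)) = b'
    rw [gb, map_smul, k2, smul_smul, mul_div_cancel₀ _ hκ, ← gb']
    exact g'.symm_apply_apply b'

end Pool.Agent.TRI
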